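import Pool.Agent.H13.GeoK2

namespace Pool.Agent.Results.MP_1038e0_co.Hull

/-- The vertices are distinct points and no three of them are collinear. -/
def GenPos {n : ℕ} (P : Fin n → ℝ × ℝ) : Prop :=
  Function.Injective P ∧ ∀ i j k, i ≠ j → i ≠ k → j ≠ k → ¬ Collinear ℝ {P i, P j, P k}

/-- The distinct edges `xy` and `uv` meet at a point other than a shared endpoint. -/
def Cross {n : ℕ} (P : Fin n → ℝ × ℝ) (x y u v : Fin n) : Prop :=
  x ≠ y ∧ u ≠ v ∧ s(x, y) ≠ s(u, v) ∧ ∃ z ∈ segment ℝ (P x) (P y) ∩ segment ℝ (P u) (P v),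
    ∀ w, (w = x ∨ w = y) → (w = u ∨ w = v) → z ≠ P w

/-- Number of vertices of the drawing that are vertices of the convex hull. -/
noncomputable def hull {n : ℕ} (P : Fin n → ℝ × ℝ) : ℕ :=
  {i | P i ∈ (convexHull ℝ (Set.range P)).extremePoints ℝ}.ncard

open Pool.Agent.H13.GeoK

theorem gp {n : ℕ} {P : Fin n → ℝ × ℝ} (h : GenPos P) : GP P := by
  intro i j k a b d e
  apply h.2 i j k a b d
  have hne : P j - P i ≠ 0 := sub_ne_zero.2 (h.1.ne a.symm)
  have hpos : ((P j).1 - (P i).1) ^ 2 + ((P j).2 - (P i).2) ^ 2 ≠ 0 := by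
    intro h0
    apply hne
    ext <;> simp only [Prod.fst_sub, Prod.snd_sub, Prod.fst_zero, Prod.snd_zero] <;> nlinarith
  rw [collinear_iff_of_mem (p₀ := P i) (by simp)]
  refine ⟨P j - P i, ?_⟩
  intro p hp
  simp only [Set.mem_insert_iff, Set.mem_singleton_iff] at hp
  rcases hp with rfl | rfl | rfl
  · exact ⟨0, by simp⟩
  · exact ⟨1, by simp⟩
  · refine ⟨(((P k).1 - (P i).1) * ((P j).1 - (P i).1) + ((P k).2 - (P i).2) * ((P j).2 - (P i).2)) /
      (((P j).1 - (P i).1) ^ 2 + ((P j).2 - (P i).2) ^ 2), ?_⟩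
    unfold o at e
    ext <;> simp only [vadd_eq_add, Prod.fst_add, Prod.snd_add, Prod.smul_fst, Prod.smul_snd, Prod.fst_sub,
      Prod.snd_sub, smul_eq_mul] <;> field_simp
    · linear_combination (-((P j).2 - (P i).2)) * e
    · linear_combination ((P j).1 - (P i).1) * e

theorem half {n : ℕ} {P : Fin n → ℝ × ℝ} (h : GP P) {x y u v : Fin n} (hc : Cross P x y u v) :
    o (P x) (P y) (P u) * o (P x) (P y) (P v) < 0 := by
  obtain ⟨xy, uv, hs, z, ⟨⟨a, b, ha, hb, hab, e1⟩, ⟨a', b', ha', hb', hab', e2⟩⟩, hz⟩ := hc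
  have key : a' * o (P x) (P y) (P u) + b' * o (P x) (P y) (P v) = 0 := by
    have e := e1.trans e2.symm
    have f1 := congrArg Prod.fst e
    have f2 := congrArg Prod.snd e
    simp only [Prod.fst_add, Prod.snd_add, Prod.smul_fst, Prod.smul_snd, smul_eq_mul] at f1 f2
    obtain rfl : a = 1 - b := by linarith
    obtain rfl : a' = 1 - b' := by linarith
    unfold o
    linear_combination ((P y).2 - (P x).2) * f1 - ((P y).1 - (P x).1) * f2
  have o1 : o (P x) (P y) (P x) = 0 := by unfold o; ring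
  have o2 : o (P x) (P y) (P y) = 0 := by unfold o; ring
  have hu : ¬ (u = x ∨ u = y) := by
    intro hu
    have hv : o (P x) (P y) (P v) ≠ 0 := by
      refine h _ _ _ xy ?_ ?_ <;> rintro rfl <;> rcases hu with rfl | rfl <;> simp_all
    have h0 : o (P x) (P y) (P u) = 0 := by rcases hu with rfl | rfl <;> assumption
    have hb0 : b' = 0 := by simpa [h0, hv] using key
    obtain rfl : a' = 1 := by linarith
    exact hz u hu (Or.inl rfl) (by simpa [hb0] using e2.symm)
  have hv : ¬ (v = x ∨ v = y) := by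
    intro hv
    have hu' : o (P x) (P y) (P u) ≠ 0 :=
      h _ _ _ xy (fun e => hu (Or.inl e.symm)) (fun e => hu (Or.inr e.symm))
    have h0 : o (P x) (P y) (P v) = 0 := by rcases hv with rfl | rfl <;> assumption
    have ha0 : a' = 0 := by simpa [h0, hu'] using key
    obtain rfl : b' = 1 := by linarith
    exact hz v hv (Or.inr rfl) (by simpa [ha0] using e2.symm)
  have p1 := h x y u xy (fun e => hu (Or.inl e.symm)) (fun e => hu (Or.inr e.symm))
  have p2 := h x y v xy (fun e => hv (Or.inl e.symm)) (fun e => hv (Or.inr e.symm))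
  by_contra hn
  have hp : 0 < o (P x) (P y) (P u) * o (P x) (P y) (P v) :=
    lt_of_le_of_ne (not_lt.1 hn) (mul_ne_zero p1 p2).symm
  have q1 : 0 < o (P x) (P y) (P u) ^ 2 := by positivity
  have : a' * o (P x) (P y) (P u) ^ 2 + b' * (o (P x) (P y) (P u) * o (P x) (P y) (P v)) = 0 := by
    linear_combination o (P x) (P y) (P u) * key
  rcases ha'.eq_or_lt with rfl | h1
  · have : b' = 1 := by linarith
    subst this; linarith
  · nlinarith [mul_pos h1 q1, mul_nonneg hb' hp.le]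

theorem frac {s t : ℝ} (h : s * t < 0) : s - t ≠ 0 ∧ 0 ≤ s / (s - t) ∧ 0 ≤ -t / (s - t) := by
  rcases mul_neg_iff.1 h with ⟨a, b⟩ | ⟨a, b⟩
  · exact ⟨by linarith, div_nonneg a.le (by linarith), div_nonneg (by linarith) (by linarith)⟩
  · exact ⟨by linarith, div_nonneg_of_nonpos a.le (by linarith), div_nonneg_of_nonpos (by linarith) (by linarith)⟩

theorem cross_iff {n : ℕ} {P : Fin n → ℝ × ℝ} (h : GP P) {x y u v : Fin n} :
    Cross P x y u v ↔ X P x y u v := by
  constructor
  · intro hc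
    refine ⟨half h hc, half h ?_⟩
    obtain ⟨a, b, d, z, ⟨z1, z2⟩, hz⟩ := hc
    exact ⟨b, a, d.symm, z, ⟨z2, z1⟩, fun w p q => hz w q p⟩
  · intro hx
    obtain ⟨h01, h02, h03, h12, h13, h23⟩ := X_ne hx
    obtain ⟨a1, a2, a3⟩ := frac hx.1
    obtain ⟨b1, b2, b3⟩ := frac hx.2
    refine ⟨h01, h23, by simp [h02, h03], _, ⟨⟨_, _, b3, b2, by field_simp; ring, rfl⟩,
      ⟨_, _, a3, a2, by field_simp; ring, ?_⟩⟩, ?_⟩
    · have e : o (P u) (P v) (P x) - o (P u) (P v) (P y) = -(o (P x) (P y) (P u) - o (P x) (P y) (P v)) := by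
        unfold o; ring
      rw [e]
      ext <;> simp only [Prod.fst_add, Prod.snd_add, Prod.smul_fst, Prod.smul_snd, smul_eq_mul] <;>
        field_simp <;> unfold o <;> ring
    · rintro w (rfl | rfl) (rfl | rfl) <;> simp_all

theorem result (n : ℕ) (P Q : Fin n → ℝ × ℝ) (hP : GenPos P) (hQ : GenPos Q)
    (hom : ∃ f : Fin n → Fin n, Function.Injective f ∧
      ∀ x y u v, Cross P x y u v → Cross Q (f x) (f y) (f u) (f v))
    (niso : ¬ ∃ g : Fin n ≃ Fin n, ∀ x y u v, Cross P x y u v ↔ Cross Q (g x) (g y) (g u) (g v)) :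
    hull P < hull Q := by
  obtain ⟨f, hf, H⟩ := hom
  let g : Fin n ≃ Fin n := Equiv.ofBijective f (Finite.injective_iff_bijective.1 hf)
  have gP := gp hP
  have gQ := gp hQ
  have gR : GP (Q ∘ g) := fun i j k a b d => gQ _ _ _ (g.injective.ne a) (g.injective.ne b) (g.injective.ne d)
  by_contra hn
  have hc : (Hu (Q ∘ g)).ncard = hull Q := by
    have : Hu (Q ∘ g) = g ⁻¹' Hu Q := by
      ext i; simp [Hu, Set.range_comp, g.surjective.range_eq]
    rw [this, Set.ncard_preimage_of_injective_subset_range g.injective (by simp)]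
    rfl
  have := core gP gR (fun x y u v h => (cross_iff gQ).1 (H x y u v ((cross_iff gP).2 h)))
    (hQ.1.comp g.injective) (by rw [hc]; exact not_lt.1 hn)
  exact niso ⟨g, fun x y u v => ⟨H x y u v, fun h => (cross_iff gP).2 (this x y u v ((cross_iff gQ).1 h))⟩⟩

end Pool.Agent.Results.MP_1038e0_co.Hull
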